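import Mathlib
import Pool.Agent.Lib.MP_2c63aa_nt.CubicAll

namespace Pool.Agent.Results.MP_2c63aa_nt.CubicClasses

open Pool.Agent.Lib.MP_2c63aa_nt

/-- Let `A` be a Mills number such that `A ^ 3 ^ m` is a root of `X ^ 3 - a X ^ 2 + b X - c` whose
other roots `y, z` are real with `|z| < |y| < 1`. Then the cubic lies in a short list of classes
modulo three, depending on the sign of `y`. -/
theorem result (A : ℝ) (hA : ∀ n : ℕ, 1 ≤ n → Nat.Prime ⌊A ^ 3 ^ n⌋₊) (m : ℕ) (a b c : ℤ)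
    (y z : ℝ) (h1 : A ^ 3 ^ m + y + z = a) (h2 : A ^ 3 ^ m * y + y * z + z * A ^ 3 ^ m = b)
    (h3 : A ^ 3 ^ m * y * z = c) (hz : |z| < |y|) (hy : |y| < 1) :
    (a % 3, b % 3, c % 3) ∈
      if y < 0 then [((1 : ℤ), (0 : ℤ), (0 : ℤ)), (1, 1, 1), (1, 2, 2), (2, 0, 0), (2, 1, 2), (2, 2, 1)]
      else [(0, 0, 0), (0, 1, 0), (0, 2, 0), (2, 1, 0)] := by
  obtain ⟨c1, c2, -⟩ := cubic_all A hA m a b c y z h1 h2 h3 hz hy
  split_ifs with h
  · exact c1 h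
  · refine c2 (lt_of_le_of_ne (not_lt.1 h) ?_)
    rintro rfl
    exact absurd hz (by simp)

end Pool.Agent.Results.MP_2c63aa_nt.CubicClasses
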