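import Mathlib
import Pool.Agent.Lib.MP_2c63aa_nt.CubicAll

namespace Pool.Agent.Results.MP_2c63aa_nt.CubicDisc

open Pool.Agent.Lib.MP_2c63aa_nt

/-- Let `A` be a Mills number such that `A ^ 3 ^ m` is a root of `X ^ 3 - a X ^ 2 + b X - c` whose
other roots `y, z` are real with `|z| < |y| < 1`. When the Mills primes are `2` modulo three the
discriminant of the cubic is a non-residue modulo all large Mills primes. -/
theorem result (A : ℝ) (hA : ∀ n : ℕ, 1 ≤ n → Nat.Prime ⌊A ^ 3 ^ n⌋₊) (m : ℕ) (a b c : ℤ)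
    (y z : ℝ) (h1 : A ^ 3 ^ m + y + z = a) (h2 : A ^ 3 ^ m * y + y * z + z * A ^ 3 ^ m = b)
    (h3 : A ^ 3 ^ m * y * z = c) (hz : |z| < |y|) (hy : |y| < 1)
    (h : a % 3 = if y < 0 then 2 else 0) :
    ∃ n₀ : ℕ, ∀ n ≥ n₀,
      ¬ IsSquare ((a ^ 2 * b ^ 2 - 4 * b ^ 3 - 4 * a ^ 3 * c - 27 * c ^ 2 + 18 * a * b * c : ℤ) :
        ZMod ⌊A ^ 3 ^ n⌋₊) := by
  refine (cubic_all A hA m a b c y z h1 h2 h3 hz hy).2.2 ?_
  split_ifs at h with h'
  · exact Or.inl ⟨h', h⟩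
  · refine Or.inr ⟨lt_of_le_of_ne (not_lt.1 h') ?_, h⟩
    rintro rfl
    exact absurd hz (by simp)

end Pool.Agent.Results.MP_2c63aa_nt.CubicDisc
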