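import Pool.Agent.Lib.MP_2c63aa_nt.MF.Sign

/-! Least Mills elements over `F[T]` for every exponent prime to the characteristic. -/

namespace Pool.Agent.Results.MP_2c63aa_nt.FqNearest

open Polynomial Pool.Agent.MillsF

theorem result (F : Type) [Field F] [Finite F] (c : ℕ) (S : Set F) (hc : 3 ≤ c)
    (hF : (c : F) ≠ 0) (hS : ∃ σ ∈ S, σ ≠ 0) :
    (∀ P : F[X], Irreducible P → 9 ≤ P.natDegree →
      ∃ α : LaurentSeries F, IsLeastMills c S α ∧ IsFloor α P) ∧
    ∀ α : LaurentSeries F, IsLeastMills c S α →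
      Transcendental (IntermediateField.adjoin F {T F}) α ∨
      ∃ (m : ℕ) (a b : F[X]) (u : F), u ≠ 0 ∧
        (c = 3 ∧ 2 * b.natDegree ≤ a.natDegree ∧
          (minpoly (IntermediateField.adjoin F {T F}) (α ^ c ^ m)).map
              (algebraMap (IntermediateField.adjoin F {T F}) (LaurentSeries F)) =
            X ^ 3 - C (aeval (T F) a) * X ^ 2 + C (aeval (T F) b) * X -
              C (algebraMap F (LaurentSeries F) u) ∨
        c = 4 ∧ (∃ τ ∈ S, τ ≠ 0 ∧ -τ ^ 4 ∈ S) ∧
          (minpoly (IntermediateField.adjoin F {T F}) (α ^ c ^ m)).map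
              (algebraMap (IntermediateField.adjoin F {T F}) (LaurentSeries F)) =
            X ^ 2 - C (aeval (T F) a) * X + C (algebraMap F (LaurentSeries F) u)) := by
  cases nonempty_fintype F
  obtain ⟨σ, hσ, h0⟩ := hS
  exact ⟨fun P hP h9 => MF.exists_least hc hF hσ h0 hP h9, fun α h => MF.nearest hc hF hσ h0 h⟩

end Pool.Agent.Results.MP_2c63aa_nt.FqNearest
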