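import Pool.Agent.Lib.MP_2c63aa_nt.MF.Sign

/-! The function field analogue of the transcendence of the constant of Mills. -/

namespace Pool.Agent.Results.MP_2c63aa_nt.FqSigned

open Polynomial Pool.Agent.MillsF

theorem result (F : Type) [Field F] [Finite F] (σ : F) (h2 : (2 : F) ≠ 0) (h3 : (3 : F) ≠ 0)
    (h0 : σ ≠ 0) (h4 : σ ^ 2 ≠ 4) (h5 : σ ^ 2 ≠ -2) :
    (∀ P : F[X], Irreducible P → 9 ≤ P.natDegree →
      ∃ α : LaurentSeries F, IsLeastMills 3 {σ} α ∧ IsFloor α P) ∧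
    ∀ α : LaurentSeries F, IsLeastMills 3 {σ} α →
      Transcendental (IntermediateField.adjoin F {T F}) α := by
  cases nonempty_fintype F
  exact ⟨fun P hP h9 => MF.exists_least le_rfl (by exact_mod_cast h3) (Set.mem_singleton σ) h0 hP h9,
    fun α h => MF.signed h0 h2 h3 h4 h5 h⟩

end Pool.Agent.Results.MP_2c63aa_nt.FqSigned
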